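import Pool.Agent.H6.FI.TargetsB
import Pool.Agent.H6.FI.Lib

open FI AMc AMt
open scoped ComplexConjugate

namespace Pool.Agent.H7.FI

theorem perm_char (G X : Type) [Group G] [Fintype X] [DecidableEq X] (a : G → X → X)
    (h1 : ∀ x, a 1 x = x) (h2 : ∀ g h x, a (g * h) x = a g (a h x)) :
    IsChar G (fun g => ((Finset.univ.filter (fun x : X => a g x = x)).card : ℂ)) := by
  let e := Fintype.equivFin X
  refine ⟨Fintype.card X,
    { toFun := fun g => LinearMap.funLeft ℂ ℂ (fun i => e (a g⁻¹ (e.symm i)))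
      map_one' := ?_
      map_mul' := ?_ }, ?_⟩
  · apply LinearMap.ext; intro f; funext i
    simp [LinearMap.funLeft_apply, h1]
  · intro g h
    apply LinearMap.ext; intro f; funext i
    simp [LinearMap.funLeft_apply, h2, Module.End.mul_apply]
  · funext g
    have hc : ∀ x, a g x = x ↔ a g⁻¹ x = x := by
      intro x
      constructor
      · intro h
        have := h2 g⁻¹ g x
        rw [inv_mul_cancel, h1, h] at this
        exact this.symm
      · intro h
        have := h2 g g⁻¹ x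
        rw [mul_inv_cancel, h1, h] at this
        exact this.symm
    change LinearMap.trace ℂ (Fin (Fintype.card X) → ℂ)
      (LinearMap.funLeft ℂ ℂ (fun i => e (a g⁻¹ (e.symm i)))) = _
    rw [LinearMap.trace_eq_matrix_trace ℂ (Pi.basisFun ℂ (Fin (Fintype.card X)))]
    rw [Matrix.trace]
    have h3 : ∀ i, (LinearMap.toMatrix (Pi.basisFun ℂ (Fin (Fintype.card X)))
        (Pi.basisFun ℂ (Fin (Fintype.card X)))
        (LinearMap.funLeft ℂ ℂ (fun i => e (a g⁻¹ (e.symm i))))).diag i =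
        if a g (e.symm i) = e.symm i then 1 else 0 := by
      intro i
      rw [Matrix.diag_apply, LinearMap.toMatrix_apply, Pi.basisFun_apply, Pi.basisFun_repr,
        LinearMap.funLeft_apply, Pi.single_apply]
      have : e (a g⁻¹ (e.symm i)) = i ↔ a g (e.symm i) = e.symm i := by
        rw [hc, ← e.injective.eq_iff (a := a g⁻¹ (e.symm i)), e.apply_symm_apply]
      simp only [this]
    rw [Finset.sum_congr rfl (fun i _ => h3 i)]
    rw [e.symm.sum_comp (fun x => if a g x = x then (1 : ℂ) else 0)]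
    rw [Finset.sum_boole]

theorem diff_irr (G : Type) [Group G] [Fintype G] (f f1 f2 : G → ℂ) (h1 : IsChar G f1)
    (h2 : IsChar G f2) (hf : ∀ g, f g = f1 g - f2 g)
    (hn : ∑ g, f g * conj (f g) = (Nat.card G : ℂ)) (hd : 0 < (f 1).re) : f ∈ Irr G := by
  have hG : (Nat.card G : ℂ) ≠ 0 := by
    have : Nat.card G ≠ 0 := Nat.card_pos.ne'
    exact_mod_cast this
  obtain ⟨hA, hB, hC, -⟩ := FI.Lib.lA3 G
  have hcl : ∀ g x, f (g * x * g⁻¹) = f x := by
    intro g x
    rw [hf, hf, (hB f1 h1).1 g x, (hB f2 h2).1 g x]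
  have hex : ∃ χ ∈ Irr G, ∑ g, f g * conj (χ g) ≠ 0 := by
    by_contra hcon
    push Not at hcon
    have := FI.Lib.lA2 G f hcl hcon
    rw [this] at hn
    simp only [Pi.zero_apply, zero_mul, Finset.sum_const_zero] at hn
    exact hG hn.symm
  obtain ⟨χ, hχ, hne⟩ := hex
  obtain ⟨k1, hk1⟩ := hC f1 h1 χ hχ
  obtain ⟨k2, hk2⟩ := hC f2 h2 χ hχ
  have hm : ∑ g, f g * conj (χ g) = ((k1 : ℤ) - (k2 : ℤ) : ℤ) * (Nat.card G : ℂ) := by
    have : ∑ g, f g * conj (χ g) = ∑ g, f1 g * conj (χ g) - ∑ g, f2 g * conj (χ g) := by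
      rw [← Finset.sum_sub_distrib]
      refine Finset.sum_congr rfl fun g _ => ?_
      rw [hf]; ring
    rw [this, hk1, hk2]
    push_cast
    ring
  set m : ℤ := (k1 : ℤ) - (k2 : ℤ) with hmdef
  have hm0 : m ≠ 0 := by
    intro h0
    rw [h0] at hm
    apply hne
    rw [hm]; simp
  have hm' : ∑ g, χ g * conj (f g) = (m : ℂ) * (Nat.card G : ℂ) := by
    have := congrArg conj hm
    rw [map_sum, map_mul] at this
    rw [map_natCast] at this
    have h5 : conj ((m : ℤ) : ℂ) = ((m : ℤ) : ℂ) := by simp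
    rw [h5] at this
    rw [← this]
    refine Finset.sum_congr rfl fun g _ => ?_
    rw [map_mul, Complex.conj_conj]; ring
  have hχχ : ∑ g, χ g * conj (χ g) = (Nat.card G : ℂ) := by
    rw [FI.Lib.lA1 G χ χ hχ hχ, if_pos rfl]
  have hnorm : ∑ g, (f g - m * χ g) * conj (f g - m * χ g) = (1 - (m : ℂ) ^ 2) * (Nat.card G : ℂ) := by
    have : ∀ g, (f g - m * χ g) * conj (f g - m * χ g) = f g * conj (f g) - m * (χ g * conj (f g))
        - m * (f g * conj (χ g)) + m ^ 2 * (χ g * conj (χ g)) := by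
      intro g
      have h5 : conj ((m : ℤ) : ℂ) = ((m : ℤ) : ℂ) := by simp
      rw [map_sub, map_mul, h5]; ring
    rw [Finset.sum_congr rfl (fun g _ => this g), Finset.sum_add_distrib, Finset.sum_sub_distrib,
      Finset.sum_sub_distrib, ← Finset.mul_sum, ← Finset.mul_sum, ← Finset.mul_sum, hn, hm, hm',
      hχχ]
    ring
  have hnorm' : ∑ g, Complex.normSq (f g - m * χ g) = (1 - (m : ℝ) ^ 2) * (Nat.card G : ℝ) := by
    have h6 : ((∑ g, Complex.normSq (f g - m * χ g) : ℝ) : ℂ) =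
        (((1 - (m : ℝ) ^ 2) * (Nat.card G : ℝ) : ℝ) : ℂ) := by
      push_cast
      rw [← hnorm]
      refine Finset.sum_congr rfl fun g _ => ?_
      rw [Complex.mul_conj]
    exact_mod_cast h6
  have hpos : (0 : ℝ) ≤ (1 - (m : ℝ) ^ 2) * (Nat.card G : ℝ) := by
    rw [← hnorm']
    exact Finset.sum_nonneg fun g _ => Complex.normSq_nonneg _
  have hGr : (0 : ℝ) < (Nat.card G : ℝ) := by exact_mod_cast Nat.card_pos
  have hm2 : m ^ 2 ≤ 1 := by
    have : (m : ℝ) ^ 2 ≤ 1 := by nlinarith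
    exact_mod_cast this
  have hm1 : m = 1 ∨ m = -1 := by
    have h7 : m ≤ 1 := by nlinarith
    have h8 : -1 ≤ m := by nlinarith
    omega
  have hm21 : (m : ℝ) ^ 2 = 1 := by
    rcases hm1 with h | h <;> rw [h] <;> norm_num
  rw [hm21] at hnorm'
  have hz : ∀ g, f g = m * χ g := by
    intro g
    have h9 : ∑ g, Complex.normSq (f g - m * χ g) = 0 := by rw [hnorm']; ring
    rw [Finset.sum_eq_zero_iff_of_nonneg (fun g _ => Complex.normSq_nonneg _)] at h9
    have := h9 g (Finset.mem_univ g)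
    rw [Complex.normSq_eq_zero] at this
    linear_combination this
  obtain ⟨-, d, hd0, hd1⟩ := hA χ hχ
  rcases hm1 with h | h
  · have : f = χ := by
      funext g
      rw [hz g, h]; simp
    rw [this]; exact hχ
  · exfalso
    rw [hz 1, h, hd1] at hd
    simp at hd
    linarith [(Nat.cast_nonneg d : (0 : ℝ) ≤ d)]

/-- the value of the character of degree 4 -/
def z4 (σ : Equiv.Perm (Fin 5)) : ℤ := ((Finset.univ.filter (fun i => σ i = i)).card : ℤ) - 1

/-- the value of the character of degree 5 -/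
def z5 (σ : Equiv.Perm (Fin 5)) : ℤ :=
  ((Finset.univ.filter (fun i : Sym2 (Fin 5) => Sym2.map σ i = i)).card : ℤ) -
    2 * (Finset.univ.filter (fun i => σ i = i)).card

theorem s4 : ∑ σ : Equiv.Perm (Fin 5), z4 σ ^ 2 = 120 := by decide +kernel

theorem s5 : ∑ σ : Equiv.Perm (Fin 5), z5 σ ^ 2 = 120 := by decide +kernel

theorem s4a : ∑ σ : Equiv.Perm (Fin 5), (if Equiv.Perm.sign σ = 1 then z4 σ ^ 2 else 0) = 60 := by
  decide +kernel

theorem s5a : ∑ σ : Equiv.Perm (Fin 5), (if Equiv.Perm.sign σ = 1 then z5 σ ^ 2 else 0) = 60 := by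
  decide +kernel

theorem z41 : z4 1 = 4 := by decide +kernel

theorem z51 : z5 1 = 5 := by decide +kernel

theorem card5 : Nat.card (Equiv.Perm (Fin 5)) = 120 := by
  rw [Nat.card_perm, Nat.card_fin]
  rfl

theorem cardA5 : Nat.card A5 = 60 := by
  rw [nat_card_alternatingGroup, Nat.card_fin]
  rfl

theorem mainlem (z : Equiv.Perm (Fin 5) → ℤ) (f1 f2 : Equiv.Perm (Fin 5) → ℂ)
    (h1 : IsChar (Equiv.Perm (Fin 5)) f1) (h2 : IsChar (Equiv.Perm (Fin 5)) f2)
    (hf : ∀ g, (z g : ℂ) = f1 g - f2 g) (hs : ∑ σ, z σ ^ 2 = 120)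
    (hsa : ∑ σ : Equiv.Perm (Fin 5), (if Equiv.Perm.sign σ = 1 then z σ ^ 2 else 0) = 60)
    (hz : 0 < z 1) :
    (fun g => (z g : ℂ)) ∈ Irr (Equiv.Perm (Fin 5)) ∧
      rsf A5 (fun g => (z g : ℂ)) ∈ IrrS A5 := by
  have hI : (fun g => (z g : ℂ)) ∈ Irr (Equiv.Perm (Fin 5)) := by
    apply diff_irr _ _ f1 f2 h1 h2 hf
    · rw [card5]
      have : ((∑ σ, z σ ^ 2 : ℤ) : ℂ) = ((120 : ℤ) : ℂ) := by rw [hs]
      push_cast at this ⊢
      rw [← this]
      refine Finset.sum_congr rfl fun g _ => ?_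
      have h5 : conj ((z g : ℤ) : ℂ) = ((z g : ℤ) : ℂ) := by simp
      rw [h5]; ring
    · simpa using hz
  refine ⟨hI, ?_⟩
  have hch := ((FI.Lib.lA3 (Equiv.Perm (Fin 5))).1 _ hI).1
  have hr := FI.Lib.lA4.2.1 A5 (Equiv.Perm (Fin 5)) A5.subtype _ hch
  apply FI.Lib.lS10 (Equiv.Perm (Fin 5)) A5
  · intro g hg
    simp only [rsf]
    rw [if_neg hg]
  · have : (fun n : A5 => rsf A5 (fun g => (z g : ℂ)) (n : Equiv.Perm (Fin 5))) =
        fun n : A5 => (z (A5.subtype n) : ℂ) := by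
      funext n
      simp only [rsf]
      rw [if_pos n.2]
      rfl
    rw [this]; exact hr
  · rw [cardA5]
    have : ((∑ σ : Equiv.Perm (Fin 5), (if Equiv.Perm.sign σ = 1 then z σ ^ 2 else 0) : ℤ) : ℂ) =
      ((60 : ℤ) : ℂ) := by rw [hsa]
    push_cast at this ⊢
    rw [← this]
    refine Finset.sum_congr rfl fun g _ => ?_
    by_cases hg : Equiv.Perm.sign g = 1
    · rw [if_pos hg]
      have hg' : g ∈ A5 := Equiv.Perm.mem_alternatingGroup.mpr hg
      simp only [rsf]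
      rw [if_pos hg']
      have h5 : conj ((z g : ℤ) : ℂ) = ((z g : ℤ) : ℂ) := by simp
      rw [h5]; ring
    · rw [if_neg hg]
      have hg' : g ∉ A5 := fun h => hg (Equiv.Perm.mem_alternatingGroup.mp h)
      simp only [rsf]
      rw [if_neg hg']
      simp

theorem pf_A5B : T_A5B := by
  have hp : IsChar (Equiv.Perm (Fin 5))
      (fun g => ((Finset.univ.filter (fun x : Fin 5 => g x = x)).card : ℂ)) :=
    perm_char (Equiv.Perm (Fin 5)) (Fin 5) (fun g x => g x) (fun x => rfl) (fun g h x => rfl)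
  have hq : IsChar (Equiv.Perm (Fin 5))
      (fun g => ((Finset.univ.filter (fun x : Sym2 (Fin 5) => Sym2.map g x = x)).card : ℂ)) := by
    apply perm_char (Equiv.Perm (Fin 5)) (Sym2 (Fin 5)) (fun g x => Sym2.map g x)
    · intro x
      simp
    · intro g h x
      simp [Sym2.map_map]
  have h2 : IsChar (Equiv.Perm (Fin 5))
      (fun g => ((Finset.univ.filter (fun x : Fin 2 => x = x)).card : ℂ)) :=
    perm_char (Equiv.Perm (Fin 5)) (Fin 2) (fun g x => x) (fun x => rfl) (fun g h x => rfl)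
  have h1 : IsChar (Equiv.Perm (Fin 5))
      (fun g => ((Finset.univ.filter (fun x : Fin 1 => x = x)).card : ℂ)) :=
    perm_char (Equiv.Perm (Fin 5)) (Fin 1) (fun g x => x) (fun x => rfl) (fun g h x => rfl)
  have h3 := FI.Lib.lA4.1 _ _ _ h2 hp
  obtain ⟨a, b⟩ := mainlem z4 _ _ hp h1 (fun g => by simp [z4]) s4 s4a (by rw [z41]; norm_num)
  obtain ⟨c, d⟩ := mainlem z5 _ _ hq h3 (fun g => by simp [z5]) s5 s5a (by rw [z51]; norm_num)
  refine ⟨_, _, a, c, ?_, ?_, b, d⟩
  · simp [z41]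
  · simp [z51]

end Pool.Agent.H7.FI
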