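import Pool.Agent.H6.FI.TargetsC

open FI AMc AMt
open scoped Classical commutatorElement

namespace Pool.Agent.H7.FI

open Subgroup

theorem mem_frattini_iff' {G : Type} [Group G] (x : G) :
    x ∈ frattini G ↔ ∀ M : Subgroup G, IsCoatom M → x ∈ M := by
  unfold frattini Order.radical
  simp only [Subgroup.mem_iInf, Set.mem_ofPred_eq]

theorem pf_FPH (h1 : T_FNL) : T_FPH := by
  intro G _ _ a ha b hb
  rw [mem_frattini_iff']
  intro M hM
  obtain ⟨hnil, -, -⟩ := h1 G
  set F := fit G with hF
  have hFn : F.Normal := fit_normal G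
  suffices hs : ⁅F, F⁆ ≤ M by
    exact hs (Subgroup.commutator_mem_commutator ha hb)
  by_cases hFM : F ≤ M
  · exact le_trans (Subgroup.commutator_le_left F F) hFM
  set P := F ⊓ M with hP
  have hPF : P ≤ F := inf_le_left
  have hPM : P ≤ M := inf_le_right
  -- an element of F outside of M normalising P
  have hlt : P.subgroupOf F < ⊤ := by
    rw [lt_top_iff_ne_top]
    intro h
    apply hFM
    intro x hx
    have : (⟨x, hx⟩ : F) ∈ P.subgroupOf F := by rw [h]; trivial
    exact hPM (Subgroup.mem_subgroupOf.mp this)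
  have hnc : NormalizerCondition F := Group.normalizerCondition_of_isNilpotent
  have h2 := hnc _ hlt
  obtain ⟨x, hx1, hx2⟩ := SetLike.exists_of_lt h2
  have hxM : (x : G) ∉ M := by
    intro h
    exact hx2 (Subgroup.mem_subgroupOf.mpr ⟨x.2, h⟩)
  have hxn : (x : G) ∈ Subgroup.normalizer (P : Set G) := by
    rw [Subgroup.mem_normalizer_iff] at hx1 ⊢
    intro y
    constructor
    · intro hy
      have := (hx1 ⟨y, hPF hy⟩).mp (Subgroup.mem_subgroupOf.mpr hy)
      exact Subgroup.mem_subgroupOf.mp this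
    · intro hy
      have hyF : y ∈ F := by
        have := hFn.conj_mem _ (hPF hy) (x : G)⁻¹
        have e : (x : G)⁻¹ * (x * y * (x : G)⁻¹) * (x : G)⁻¹⁻¹ = y := by group
        rwa [e] at this
      have := (hx1 ⟨y, hyF⟩).mpr (Subgroup.mem_subgroupOf.mpr hy)
      exact Subgroup.mem_subgroupOf.mp this
  have hMn : M ≤ Subgroup.normalizer (P : Set G) := by
    intro m hm
    rw [Subgroup.mem_normalizer_iff]
    intro y
    constructor
    · intro hy
      exact ⟨hFn.conj_mem _ hy.1 m, M.mul_mem (M.mul_mem hm hy.2) (M.inv_mem hm)⟩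
    · intro hy
      have e : m⁻¹ * (m * y * m⁻¹) * m⁻¹⁻¹ = y := by group
      refine ⟨?_, ?_⟩
      · have := hFn.conj_mem _ hy.1 m⁻¹
        rwa [e] at this
      · have := M.mul_mem (M.mul_mem (M.inv_mem hm) hy.2) (M.inv_mem (M.inv_mem hm))
        rwa [e] at this
  have hPn : P.Normal := by
    rw [← Subgroup.normalizer_eq_top_iff]
    apply hM.2
    refine lt_of_le_of_ne hMn ?_
    intro h
    apply hxM
    rw [h]
    exact hxn
  -- the commutator subgroup
  have hcn : (⁅F, F⁆ ⊔ P).Normal := inferInstance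
  by_cases hQ : (⁅F, F⁆ ⊔ P) ≤ M
  · exact le_trans le_sup_left hQ
  exfalso
  have htop : (⁅F, F⁆ ⊔ P) ⊔ M = ⊤ := by
    apply hM.2
    refine lt_of_le_of_ne le_sup_right ?_
    intro h
    apply hQ
    rw [h]
    exact le_sup_left
  have hF1 : F ≤ ⁅F, F⁆ ⊔ P := by
    intro y hy
    have : y ∈ (⁅F, F⁆ ⊔ P) ⊔ M := by rw [htop]; trivial
    rw [Subgroup.mem_sup_of_normal_left] at this
    obtain ⟨q, hq, m, hm, rfl⟩ := this
    have hqF : q ∈ F := by
      have : ⁅F, F⁆ ⊔ P ≤ F := sup_le (Subgroup.commutator_le_left F F) hPF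
      exact this hq
    have hmF : m ∈ F := by
      have := F.mul_mem (F.inv_mem hqF) hy
      rwa [inv_mul_cancel_left] at this
    have hmP : m ∈ P := ⟨hmF, hm⟩
    exact Subgroup.mul_mem _ hq ((le_sup_right : P ≤ ⁅F, F⁆ ⊔ P) hmP)
  have hind : ∀ n, F ≤ F.lowerCentralSeries n ⊔ P := by
    intro n
    induction n with
    | zero => exact le_sup_left
    | succ n ih =>
      refine le_trans hF1 (sup_le ?_ le_sup_right)
      rw [Subgroup.commutator_le]
      intro g1 hg1 g2 hg2
      have := ih hg1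
      rw [Subgroup.mem_sup_of_normal_right] at this
      obtain ⟨u, hu, p, hp, rfl⟩ := this
      have e : ⁅u * p, g2⁆ = u * (p * (g2 * p⁻¹ * g2⁻¹)) * u⁻¹ * ⁅u, g2⁆ := by
        simp only [commutatorElement_def]; group
      rw [e]
      apply Subgroup.mul_mem
      · apply (le_sup_right : P ≤ _)
        apply hPn.conj_mem
        exact P.mul_mem hp (hPn.conj_mem _ (P.inv_mem hp) g2)
      · apply (le_sup_left : F.lowerCentralSeries (n + 1) ≤ _)
        rw [Subgroup.lowerCentralSeries_succ]
        exact Subgroup.commutator_mem_commutator hu hg2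
  rw [Subgroup.isNilpotent_iff_lowerCentralSeries] at hnil
  obtain ⟨n, hn⟩ := hnil
  have := hind n
  rw [hn, bot_sup_eq] at this
  exact hFM (le_trans this hPM)

end Pool.Agent.H7.FI
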