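import Pool.Agent.H6.FI.TargetsC

open FI AMc AMt
open scoped Classical

namespace Pool.Agent.H7.FI

open Subgroup

theorem mem_frattini_iff2 {G : Type} [Group G] (x : G) :
    x ∈ frattini G ↔ ∀ M : Subgroup G, IsCoatom M → x ∈ M := by
  unfold frattini Order.radical
  simp only [Subgroup.mem_iInf, Set.mem_ofPred_eq]

theorem pf_GAS (h1 : T_FNL) (h2 : T_FPH) : T_GAS := by
  intro G _ _ B hBn hFB hBF
  obtain ⟨-, hPF, -⟩ := h1 G
  have hab := h2 G
  set F := fit G with hF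
  set Φ := frattini G with hΦ
  have hFn : F.Normal := fit_normal G
  have hΦn : Φ.Normal := inferInstance
  -- a minimal supplement
  obtain ⟨H, hH, hmin⟩ := (wellFounded_lt (α := Subgroup G)).has_min {H | B ⊔ H = ⊤}
    ⟨⊤, by simp⟩
  have hH' : B ⊔ H = ⊤ := hH
  have hdec : ∀ g : G, ∃ b ∈ B, ∃ h ∈ H, g = b * h := by
    intro g
    have : g ∈ B ⊔ H := by rw [hH']; trivial
    rw [Subgroup.mem_sup_of_normal_left] at this
    obtain ⟨b, hb, h, hh, rfl⟩ := this
    exact ⟨b, hb, h, hh, rfl⟩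
  -- normality
  have hnorm : ∀ X : Subgroup G, X.Normal → X ≤ F → ((X ⊓ H) ⊔ Φ).Normal := by
    intro X hX hXF
    refine ⟨fun n hn g => ?_⟩
    have key : (X ⊓ H) ⊔ Φ ≤ ((X ⊓ H) ⊔ Φ).comap (MulAut.conj g).toMonoidHom := by
      apply sup_le
      · intro x hx
        obtain ⟨b, hb, h, hh, rfl⟩ := hdec g
        have hx' : h * x * h⁻¹ ∈ X ⊓ H :=
          ⟨hX.conj_mem _ hx.1 h, H.mul_mem (H.mul_mem hh hx.2) (H.inv_mem hh)⟩
        have e : (MulAut.conj (b * h)).toMonoidHom x =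
            (b * (h * x * h⁻¹) * b⁻¹ * (h * x * h⁻¹)⁻¹) * (h * x * h⁻¹) := by
          simp only [MulEquiv.toMonoidHom_eq_coe, MonoidHom.coe_coe, MulAut.conj_apply]
          group
        change (MulAut.conj (b * h)).toMonoidHom x ∈ (X ⊓ H) ⊔ Φ
        rw [e]
        apply Subgroup.mul_mem
        · exact (le_sup_right : Φ ≤ _) (hab b (hBF hb) _ (hXF hx'.1))
        · exact (le_sup_left : X ⊓ H ≤ _) hx'
      · intro x hx
        exact (le_sup_right : Φ ≤ _) (hΦn.conj_mem x hx g)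
    exact key hn
  have hclaim : B ⊓ H ≤ Φ := by
    intro y hy
    rw [hΦ, mem_frattini_iff2]
    intro M hM
    by_contra hyM
    have hΦM : Φ ≤ M := frattini_le_coatom hM
    have hNn := hnorm B hBn hBF
    have htop : ((B ⊓ H) ⊔ Φ) ⊔ M = ⊤ := by
      apply hM.2
      refine lt_of_le_of_ne le_sup_right ?_
      intro h
      apply hyM
      rw [h]
      exact (le_sup_left : (B ⊓ H) ⊔ Φ ≤ _) ((le_sup_left : B ⊓ H ≤ _) hy)
    have hHsub : H ≤ B ⊔ (H ⊓ M) := by
      intro h hh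
      have : h ∈ ((B ⊓ H) ⊔ Φ) ⊔ M := by rw [htop]; trivial
      rw [Subgroup.mem_sup_of_normal_left] at this
      obtain ⟨u, hu, m, hm, rfl⟩ := this
      rw [Subgroup.mem_sup_of_normal_right] at hu
      obtain ⟨x, hx, φ, hφ, rfl⟩ := hu
      rw [mul_assoc]
      have hm' : φ * m ∈ M := M.mul_mem (hΦM hφ) hm
      have hmH : φ * m ∈ H := by
        have := H.mul_mem (H.inv_mem hx.2) hh
        have e : x⁻¹ * (x * φ * m) = φ * m := by group
        rwa [e] at this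
      exact Subgroup.mul_mem _ ((le_sup_left : B ≤ _) hx.1)
        ((le_sup_right : H ⊓ M ≤ _) ⟨hmH, hm'⟩)
    have hset : B ⊔ (H ⊓ M) = ⊤ := by
      rw [eq_top_iff, ← hH']
      exact sup_le le_sup_left hHsub
    apply hmin (H ⊓ M) hset
    refine lt_of_le_of_ne inf_le_left ?_
    intro h
    apply hyM
    have : y ∈ H ⊓ M := by rw [h]; exact hy.2
    exact this.2
  refine ⟨(F ⊓ H) ⊔ Φ, hnorm F hFn le_rfl, le_sup_right, sup_le inf_le_left hPF, ?_, ?_⟩
  · apply le_antisymm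
    · intro y hy
      obtain ⟨hyB, hyB'⟩ := hy
      have hyB'' : y ∈ (F ⊓ H) ⊔ Φ := hyB'
      rw [Subgroup.mem_sup_of_normal_right] at hyB''
      obtain ⟨x, hx, φ, hφ, rfl⟩ := hyB''
      have hxB : x ∈ B := by
        have := B.mul_mem hyB (B.inv_mem (hFB hφ))
        rwa [mul_inv_cancel_right] at this
      exact Φ.mul_mem (hclaim ⟨hxB, hx.2⟩) hφ
    · exact le_inf hFB le_sup_right
  · apply le_antisymm
    · exact sup_le hBF (sup_le inf_le_left hPF)
    · intro x hx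
      obtain ⟨b, hb, h, hh, rfl⟩ := hdec x
      have hhF : h ∈ F := by
        have := F.mul_mem (F.inv_mem (hBF hb)) hx
        rwa [inv_mul_cancel_left] at this
      exact Subgroup.mul_mem _ ((le_sup_left : B ≤ _) hb)
        ((le_sup_right : (F ⊓ H) ⊔ Φ ≤ _) ((le_sup_left : F ⊓ H ≤ _) ⟨hhF, hh⟩))

end Pool.Agent.H7.FI
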