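import Pool.Agent.H6.FI.TargetsB
import Pool.Agent.H6.FI.Lib

open FI AMc AMt
open scoped ComplexConjugate

namespace Pool.Agent.H7.FI

theorem sum_surj {G H : Type} [Group G] [Fintype G] [Group H] [Fintype H] (p : G →* H)
    (hp : Function.Surjective p) (f : H → ℂ) :
    (Nat.card H : ℂ) * ∑ g, f (p g) = (Nat.card G : ℂ) * ∑ h, f h := by
  have h1 : ∀ h, ∑ g, f (p g * h) = ∑ g, f (p g) := by
    intro h
    obtain ⟨g0, rfl⟩ := hp h
    rw [← Equiv.sum_comp (Equiv.mulRight g0) (fun g => f (p g))]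
    simp
  have h2 : ∀ g, ∑ h, f (p g * h) = ∑ h, f h := fun g => Equiv.sum_comp (Equiv.mulLeft (p g)) f
  have h3 : ∑ h : H, ∑ g : G, f (p g * h) = ∑ g : G, ∑ h : H, f (p g * h) := Finset.sum_comm
  rw [Finset.sum_congr rfl (fun h _ => h1 h), Finset.sum_congr rfl (fun g _ => h2 g)] at h3
  simpa [Finset.sum_const, Nat.card_eq_fintype_card] using h3

theorem sum_supp {Γ : Type} [Group Γ] [Fintype Γ] (N : Subgroup Γ) [Fintype N] (f : Γ → ℂ)
    (hf : ∀ g, g ∉ N → f g = 0) : ∑ g, f g = ∑ n : N, f n := by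
  classical
  have h1 : ∑ g ∈ Finset.univ.filter (· ∈ N), f g = ∑ g, f g := by
    refine Finset.sum_subset (Finset.filter_subset _ _) fun x _ hx => hf x ?_
    simpa using hx
  rw [← h1]
  rw [Finset.sum_subtype (p := (· ∈ N)) (Finset.univ.filter (· ∈ N)) (by simp) f]

theorem pf_NIV (h1 : T_AEC) (h2 : T_A5T) (h3 : T_ABL) (h4 : T_IMN) : T_NIV := by
  classical
  intro Γ _ _ Z M C δ hAE hsur ν hν φ hφ hφ1
  by_contra hcon
  push Not at hcon
  obtain ⟨b4, b5, c3, c3', hT⟩ := h2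
  obtain ⟨hsupp, hcls, -, hconj, hchM, hirrM⟩ := FI.Lib.lS1 Γ M φ hφ.1
  have hZM : Z ≤ M := by rw [← hAE.inf]; exact inf_le_left
  -- central elements
  have hcen : ∀ z ∈ Z, ∀ y ∈ M, φ (z * y) * 2 = φ z * φ y := by
    intro z hz y hy
    have hsc := (FI.Lib.lSC M _ hirrM _ hirrM ⟨z, hZM hz⟩ ⟨y, hy⟩).2
    have hs : ∀ a : M, (a * ⟨z, hZM hz⟩ * a⁻¹ * ⟨y, hy⟩ : M) = ⟨z * y, M.mul_mem (hZM hz) hy⟩ := by
      intro a
      apply Subtype.ext
      simp only [Subgroup.coe_mul, Subgroup.coe_inv]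
      rw [← hAE.cen z hz (a : Γ)]
      group
    simp only [hs] at hsc
    rw [Finset.sum_const, Finset.card_univ, nsmul_eq_mul] at hsc
    simp only [Subgroup.coe_one] at hsc
    rw [hφ1, Nat.card_eq_fintype_card] at hsc
    have hne : (Fintype.card M : ℂ) ≠ 0 := by
      exact_mod_cast Fintype.card_ne_zero
    field_simp at hsc
    rw [← hsc]
  set h : Γ → ℂ := fun x => φ x * conj (φ x) with hh
  have hzz : ∀ z ∈ Z, φ z * conj (φ z) = 4 := by
    intro z hz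
    have := hcen z hz z⁻¹ (M.inv_mem (hZM hz))
    rw [mul_inv_cancel, hφ1] at this
    rw [hconj, ← this]; norm_num
  have hinv : ∀ z ∈ Z, ∀ y ∈ M, h (z * y) = h y := by
    intro z hz y hy
    have e1 := hcen z hz y hy
    have e2 := congrArg conj e1
    rw [map_mul, map_mul] at e2
    have e3 : conj (2 : ℂ) = 2 := Complex.conj_ofNat 2
    rw [e3] at e2
    have e4 := hzz z hz
    have : (φ (z * y) * 2) * (conj (φ (z * y)) * 2) = (φ z * φ y) * (conj (φ z) * conj (φ y)) := by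
      rw [e1, e2]
    simp only [hh]
    have h5 : φ (z * y) * conj (φ (z * y)) * 4 = (φ z * conj (φ z)) * (φ y * conj (φ y)) := by
      linear_combination this
    rw [e4] at h5
    linear_combination h5 / 4
  have hcjh : ∀ g x, h (g * x * g⁻¹) = h x := by
    intro g x
    have := congrFun (hcon g) x
    simp only [cj] at this
    simp only [hh, this]
  -- the function on `A₅`
  have hmemδ : ∀ x ∈ M, δ x ∈ A5 := by
    intro x hx
    rw [← hAE.map]; exact ⟨x, hx, rfl⟩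
  have hpre : ∀ τ : Equiv.Perm (Fin 5), ∃ x : Γ, τ ∈ A5 → x ∈ M ∧ δ x = τ := by
    intro τ
    by_cases hτ : τ ∈ A5
    · rw [← hAE.map] at hτ
      obtain ⟨x, hx, hx'⟩ := hτ
      exact ⟨x, fun _ => ⟨hx, hx'⟩⟩
    · exact ⟨1, fun h => absurd h hτ⟩
  choose s hs using hpre
  set F : Equiv.Perm (Fin 5) → ℂ := fun τ => if τ ∈ A5 then h (s τ) else 0 with hF
  have hF0 : ∀ τ, τ ∉ A5 → F τ = 0 := by
    intro τ hτ
    simp only [hF]; rw [if_neg hτ]
  have hFδ : ∀ x ∈ M, F (δ x) = h x := by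
    intro x hx
    simp only [hF]
    rw [if_pos (hmemδ x hx)]
    obtain ⟨hsM, hsδ⟩ := hs (δ x) (hmemδ x hx)
    have hz : s (δ x) * x⁻¹ ∈ Z := by
      rw [← hAE.inf]
      refine ⟨M.mul_mem hsM (M.inv_mem hx), ?_⟩
      apply (hAE.ker _).mpr
      rw [map_mul, map_inv, hsδ, mul_inv_cancel]
    have := hinv _ hz x hx
    rwa [inv_mul_cancel_right] at this
  have hA5n : ∀ σ τ : Equiv.Perm (Fin 5), σ * τ * σ⁻¹ ∈ A5 ↔ τ ∈ A5 := by
    intro σ τ
    rw [Equiv.Perm.mem_alternatingGroup, Equiv.Perm.mem_alternatingGroup, map_mul, map_mul,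
      map_inv, mul_comm, inv_mul_cancel_left]
  have hFcj : ∀ σ τ, F (σ * τ * σ⁻¹) = F τ := by
    intro σ τ
    by_cases hτ : τ ∈ A5
    · obtain ⟨g, rfl⟩ := hsur σ
      obtain ⟨hsM, hsδ⟩ := hs τ hτ
      have h5 : δ g * τ * (δ g)⁻¹ = δ (g * s τ * g⁻¹) := by
        rw [map_mul, map_mul, map_inv, hsδ]
      rw [h5, hFδ _ (hAE.nor.conj_mem _ hsM g), hcjh, ← hFδ _ hsM, hsδ]
    · rw [hF0 _ hτ, hF0]
      rw [hA5n]; exact hτ
  -- multiplicities
  let p : M →* A5 :=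
    { toFun := fun x => ⟨δ x, hmemδ x x.2⟩
      map_one' := by apply Subtype.ext; simp
      map_mul' := by intro x y; apply Subtype.ext; simp }
  have hp : Function.Surjective p := by
    rintro ⟨τ, hτ⟩
    obtain ⟨hsM, hsδ⟩ := hs τ hτ
    exact ⟨⟨s τ, hsM⟩, Subtype.ext hsδ⟩
  have hmul : ∀ β ∈ IrrS A5, ∃ k : ℕ, ∑ τ, F τ * conj (β τ) = k * (Nat.card A5 : ℂ) ∧
      ((k : ℂ) * (Nat.card M : ℂ) = ∑ x : M, (φ x * β (δ x)) * conj (φ x)) := by
    intro β hβ
    obtain ⟨hβs, -, -, -, hβc, -⟩ := FI.Lib.lS1 _ A5 β hβ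
    have hc1 := FI.Lib.lA4.2.1 M A5 p _ hβc
    have hc2 := FI.Lib.lA4.1 M _ _ hchM hc1
    obtain ⟨k, hk⟩ := (FI.Lib.lA3 M).2.2.1 _ hc2 _ hirrM
    refine ⟨k, ?_, ?_⟩
    · rw [sum_supp A5 (fun τ => F τ * conj (β τ)) (by
        intro g hg
        rw [hF0 g hg, zero_mul])]
      have hss := sum_surj p hp (fun a => F a * conj (β a))
      have hne : (Nat.card M : ℂ) ≠ 0 := by
        exact_mod_cast (Nat.card_pos (α := M)).ne'
      have h6 : ∑ g : M, F (p g) * conj (β (p g)) = k * (Nat.card M : ℂ) := by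
        have := congrArg conj hk
        rw [map_sum, map_mul, map_natCast, map_natCast] at this
        rw [← this]
        refine Finset.sum_congr rfl fun x _ => ?_
        have e1 : F (p x) = φ x * conj (φ x) := hFδ x x.2
        rw [e1, map_mul, map_mul, Complex.conj_conj]
        ring
      rw [h6] at hss
      have : (Nat.card M : ℂ) * ∑ a : A5, F a * conj (β a) =
          (Nat.card M : ℂ) * (k * (Nat.card A5 : ℂ)) := by
        rw [← hss]; ring
      exact mul_left_cancel₀ hne this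
    · rw [← hk]; rfl
  have hm1 : rsf A5 (fun _ => 1) ∈ IrrS A5 := (hT.all _).mpr (Or.inl rfl)
  have hm4 : rsf A5 b4 ∈ IrrS A5 := (hT.all _).mpr (Or.inr (Or.inl rfl))
  have hm5 : rsf A5 b5 ∈ IrrS A5 := (hT.all _).mpr (Or.inr (Or.inr (Or.inl rfl)))
  have hm3 : c3 ∈ IrrS A5 := (hT.all _).mpr (Or.inr (Or.inr (Or.inr (Or.inl rfl))))
  have hm3' : c3' ∈ IrrS A5 := (hT.all _).mpr (Or.inr (Or.inr (Or.inr (Or.inr rfl))))
  have h1A : (1 : Equiv.Perm (Fin 5)) ∈ A5 := A5.one_mem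
  have v1 : rsf A5 (fun _ => (1 : ℂ)) 1 = 1 := by simp only [rsf]; rw [if_pos h1A]
  have v4 : rsf A5 b4 1 = 4 := by simp only [rsf]; rw [if_pos h1A, hT.d4]
  have v5 : rsf A5 b5 1 = 5 := by simp only [rsf]; rw [if_pos h1A, hT.d5]
  obtain ⟨k1, hk1, hk1'⟩ := hmul _ hm1
  obtain ⟨k4, hk4, -⟩ := hmul _ hm4
  obtain ⟨k5, hk5, -⟩ := hmul _ hm5
  obtain ⟨k3, hk3, -⟩ := hmul _ hm3
  obtain ⟨k3', hk3', -⟩ := hmul _ hm3'
  have hk1one : k1 = 1 := by
    have hr : ∑ x : M, (φ x * rsf A5 (fun _ => (1 : ℂ)) (δ x)) * conj (φ x) = (Nat.card M : ℂ) := by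
      have ho := FI.Lib.lA1 M _ _ hirrM hirrM
      rw [if_pos rfl] at ho
      rw [← ho]
      refine Finset.sum_congr rfl fun x _ => ?_
      simp only [rsf]
      rw [if_pos (hmemδ x x.2), mul_one]
    rw [hr] at hk1'
    have hne : (Nat.card M : ℂ) ≠ 0 := by
      exact_mod_cast (Nat.card_pos (α := M)).ne'
    have : (k1 : ℂ) = 1 := by
      apply mul_right_cancel₀ hne
      rw [hk1', one_mul]
    exact_mod_cast this
  -- decomposition
  set a1 := rsf A5 (fun _ => (1 : ℂ)) with ha1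
  set a4 := rsf A5 b4 with ha4
  set a5 := rsf A5 b5 with ha5
  have hO := FI.Lib.lS2 _ A5
  have n14 : a1 ≠ a4 := fun e => by rw [← e, v1] at v4; norm_num at v4
  have n15 : a1 ≠ a5 := fun e => by rw [← e, v1] at v5; norm_num at v5
  have n13 : a1 ≠ c3 := fun e => by
    have := hT.d3; rw [← e, v1] at this; norm_num at this
  have n13' : a1 ≠ c3' := fun e => by
    have := hT.d3'; rw [← e, v1] at this; norm_num at this
  have n45 : a4 ≠ a5 := fun e => by rw [← e, v4] at v5; norm_num at v5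
  have n43 : a4 ≠ c3 := fun e => by
    have := hT.d3; rw [← e, v4] at this; norm_num at this
  have n43' : a4 ≠ c3' := fun e => by
    have := hT.d3'; rw [← e, v4] at this; norm_num at this
  have n53 : a5 ≠ c3 := fun e => by
    have := hT.d3; rw [← e, v5] at this; norm_num at this
  have n53' : a5 ≠ c3' := fun e => by
    have := hT.d3'; rw [← e, v5] at this; norm_num at this
  have hdec : (fun τ => F τ - (k1 * a1 τ + k4 * a4 τ + k5 * a5 τ + k3 * c3 τ + k3' * c3' τ)) = 0 := by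
    apply FI.Lib.lS3 _ A5
    · intro g hg
      rw [hF0 g hg, (FI.Lib.lS1 _ A5 _ hm1).1 g hg, (FI.Lib.lS1 _ A5 _ hm4).1 g hg,
        (FI.Lib.lS1 _ A5 _ hm5).1 g hg, (FI.Lib.lS1 _ A5 _ hm3).1 g hg,
        (FI.Lib.lS1 _ A5 _ hm3').1 g hg]
      ring
    · intro n hn g
      rw [hFcj, (FI.Lib.lS1 _ A5 _ hm1).2.1 n hn g, (FI.Lib.lS1 _ A5 _ hm4).2.1 n hn g,
        (FI.Lib.lS1 _ A5 _ hm5).2.1 n hn g, (FI.Lib.lS1 _ A5 _ hm3).2.1 n hn g,
        (FI.Lib.lS1 _ A5 _ hm3').2.1 n hn g]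
    · intro θ hθ
      have hexp : ∑ g, (F g - (k1 * a1 g + k4 * a4 g + k5 * a5 g + k3 * c3 g + k3' * c3' g)) *
          conj (θ g) = ∑ g, F g * conj (θ g) - (k1 * ∑ g, a1 g * conj (θ g) +
          k4 * ∑ g, a4 g * conj (θ g) + k5 * ∑ g, a5 g * conj (θ g) +
          k3 * ∑ g, c3 g * conj (θ g) + k3' * ∑ g, c3' g * conj (θ g)) := by
        simp only [Finset.mul_sum, ← Finset.sum_add_distrib, ← Finset.sum_sub_distrib]
        refine Finset.sum_congr rfl fun g _ => ?_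
        ring
      rw [hexp]
      rcases (hT.all θ).mp hθ with e | e | e | e | e
      · rw [e, hk1, hO a1 a1 hm1 hm1, hO a4 a1 hm4 hm1, hO a5 a1 hm5 hm1, hO c3 a1 hm3 hm1,
          hO c3' a1 hm3' hm1, if_pos rfl, if_neg n14.symm, if_neg n15.symm, if_neg n13.symm,
          if_neg n13'.symm]
        ring
      · rw [e, hk4, hO a1 a4 hm1 hm4, hO a4 a4 hm4 hm4, hO a5 a4 hm5 hm4, hO c3 a4 hm3 hm4,
          hO c3' a4 hm3' hm4, if_pos rfl, if_neg n14, if_neg n45.symm, if_neg n43.symm,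
          if_neg n43'.symm]
        ring
      · rw [e, hk5, hO a1 a5 hm1 hm5, hO a4 a5 hm4 hm5, hO a5 a5 hm5 hm5, hO c3 a5 hm3 hm5,
          hO c3' a5 hm3' hm5, if_pos rfl, if_neg n15, if_neg n45, if_neg n53.symm,
          if_neg n53'.symm]
        ring
      · rw [e, hk3, hO a1 c3 hm1 hm3, hO a4 c3 hm4 hm3, hO a5 c3 hm5 hm3, hO c3 c3 hm3 hm3,
          hO c3' c3 hm3' hm3, if_pos rfl, if_neg n13, if_neg n43, if_neg n53,
          if_neg hT.ne.symm]
        ring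
      · rw [e, hk3', hO a1 c3' hm1 hm3', hO a4 c3' hm4 hm3', hO a5 c3' hm5 hm3',
          hO c3 c3' hm3 hm3', hO c3' c3' hm3' hm3', if_pos rfl, if_neg n13', if_neg n43',
          if_neg n53', if_neg hT.ne]
        ring
  have hdec' : ∀ τ, F τ = k1 * a1 τ + k4 * a4 τ + k5 * a5 τ + k3 * c3 τ + k3' * c3' τ := by
    intro τ
    have := congrFun hdec τ
    simp only [Pi.zero_apply] at this
    linear_combination this
  have hF1 : F 1 = 4 := by
    have := hFδ 1 M.one_mem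
    rw [map_one] at this
    rw [this]
    simp only [hh]
    rw [hφ1, Complex.conj_ofNat]
    norm_num
  have hdeg : 4 * k4 + 5 * k5 + 3 * k3 + 3 * k3' = 3 := by
    have := hdec' 1
    rw [hF1, v1, v4, v5, hT.d3, hT.d3', hk1one] at this
    have h7 : ((4 * k4 + 5 * k5 + 3 * k3 + 3 * k3' : ℕ) : ℂ) = ((3 : ℕ) : ℂ) := by
      push_cast at this ⊢
      linear_combination -this
    exact_mod_cast h7
  -- an odd permutation
  obtain ⟨σ, hσ⟩ : ∃ σ : Equiv.Perm (Fin 5), σ ∉ A5 := by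
    refine ⟨Equiv.swap 0 1, ?_⟩
    rw [Equiv.Perm.mem_alternatingGroup, Equiv.Perm.sign_swap (by decide)]
    decide
  obtain ⟨ho1, ho2⟩ := hT.odd σ hσ
  have ha1cj : ∀ τ, a1 (σ * τ * σ⁻¹) = a1 τ := by
    intro τ
    simp only [ha1, rsf, hA5n]
  have hk40 : k4 = 0 := by omega
  have hk50 : k5 = 0 := by omega
  have hcase : (k3 = 1 ∧ k3' = 0) ∨ (k3 = 0 ∧ k3' = 1) := by omega
  apply hT.ne
  rcases hcase with ⟨e3, e3'⟩ | ⟨e3, e3'⟩
  · funext τ
    have e1 := hdec' τ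
    have e2 := hdec' (σ * τ * σ⁻¹)
    rw [hFcj, ha1cj] at e2
    have e4 := congrFun ho1 τ
    simp only [cj] at e4
    rw [hk40, hk50, e3, e3'] at e1 e2
    rw [e4] at e2
    push_cast at e1 e2
    linear_combination e2 - e1
  · funext τ
    have e1 := hdec' τ
    have e2 := hdec' (σ * τ * σ⁻¹)
    rw [hFcj, ha1cj] at e2
    have e4 := congrFun ho2 τ
    simp only [cj] at e4
    rw [hk40, hk50, e3, e3'] at e1 e2
    rw [e4] at e2
    push_cast at e1 e2
    linear_combination e1 - e2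

end Pool.Agent.H7.FI
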