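import Pool.Agent.H6.FI.TargetsC

open FI AMc AMt
open scoped Classical

namespace Pool.Agent.H7.FI

open Subgroup

theorem pf_NPH : T_NPH := by
  intro G _ _ N hN hF hn
  obtain ⟨n, hn⟩ := hn
  have := hN
  have q := (Group.isNilpotent_of_finite_tfae (G := N)).out 0 3
  rw [q]; clear q
  intro p hp P
  have := hp
  set π : G →* G ⧸ frattini G := QuotientGroup.mk' (frattini G) with hπ
  have hker : π.ker = frattini G := QuotientGroup.ker_mk' _
  set Nb : Subgroup (G ⧸ frattini G) := N.map π with hNb
  have hNbn : Nb.Normal := Subgroup.Normal.map hN π (QuotientGroup.mk'_surjective _)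
  have : Group.IsNilpotent Nb := by
    rw [Subgroup.isNilpotent_iff_lowerCentralSeries]
    refine ⟨n, ?_⟩
    rw [hNb, ← Subgroup.map_lowerCentralSeries]
    rw [Subgroup.map_eq_bot_iff, hker]
    exact hn
  let πN : N →* Nb := π.subgroupMap N
  have hsur : Function.Surjective πN := π.subgroupMap_surjective N
  let Q : Sylow p Nb := P.mapSurjective hsur
  have : (Q : Subgroup Nb).Normal := inferInstance
  have : (Q : Subgroup Nb).Characteristic := Sylow.characteristic_of_normal Q this
  have hQn : ((Q : Subgroup Nb).map Nb.subtype).Normal := inferInstance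
  set P' : Subgroup G := (P : Subgroup N).map N.subtype with hP'
  have hQP : (Q : Subgroup Nb).map Nb.subtype = P'.map π := by
    have : (Q : Subgroup Nb) = (P : Subgroup N).map πN := rfl
    rw [this, hP', Subgroup.map_map, Subgroup.map_map]
    rfl
  set A : Subgroup G := P' ⊔ frattini G with hA
  have hAc : A = (P'.map π).comap π := by
    rw [Subgroup.comap_map_eq, hker]
  have hAn : A.Normal := by
    rw [hAc, ← hQP]
    exact hQn.comap π
  have hPA : P' ≤ A := le_sup_left
  have hP'N : P' ≤ N := Subgroup.map_subtype_le _
  have hAN : A ≤ N := sup_le hP'N hF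
  have hpg : IsPGroup p (P'.subgroupOf A) := by
    have h1 : IsPGroup p P' := P.2.map _
    exact h1.comap_of_injective _ A.subtype_injective
  have hidx : ¬ p ∣ (P'.subgroupOf A).index := by
    intro hd
    apply P.not_dvd_index
    have e1 : (P : Subgroup N) = P'.subgroupOf N := by
      rw [hP', Subgroup.subgroupOf, Subgroup.comap_map_eq_self_of_injective N.subtype_injective]
    have e2 : P'.relIndex A * A.relIndex N = P'.relIndex N :=
      Subgroup.relIndex_mul_relIndex _ _ _ hPA hAN
    rw [e1]
    change p ∣ P'.relIndex N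
    rw [← e2]
    exact Dvd.dvd.mul_right hd _
  let R : Sylow p A := hpg.toSylow hidx
  have hR : (R : Subgroup A).map A.subtype = P' := by
    change (P'.subgroupOf A).map A.subtype = P'
    rw [Subgroup.subgroupOf_map_subtype, inf_eq_left.mpr hPA]
  have h1 := Sylow.normalizer_sup_eq_top R
  rw [hR] at h1
  have h2 : Subgroup.normalizer (P' : Set G) ⊔ frattini G = ⊤ := by
    rw [eq_top_iff, ← h1]
    apply sup_le le_sup_left
    rw [hA]
    exact sup_le (le_trans Subgroup.le_normalizer le_sup_left) le_sup_right
  have h3 := frattini_nongenerating h2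
  have h4 : P'.Normal := normalizer_eq_top_iff.mp h3
  exact h4.of_map_subtype

end Pool.Agent.H7.FI
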