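import Pool.Agent.H6.FI.TargetsB
import Pool.Agent.H6.FI.Lib

open FI AMc AMt
open scoped Classical

namespace Pool.Agent.H7.FI

theorem pf_AEX (h1 : T_AEC) (h2 : T_EX1) (h3 : T_DET) (h4 : T_SSQ) (h5 : T_KCN) (h6 : T_A5C)
    (h7 : T_AR) (h8 : T_ABL) (h9 : T_KKP) : T_AEX := by
  intro Γ _ _ Z M C δ hAE ν hν
  by_cases htriv : ∀ z ∈ Z ⊓ ⁅M, M⁆, ν z = 1
  · exact Or.inl (h2 Γ Z M C δ hAE ν hν htriv)
  right
  push Not at htriv
  obtain ⟨z0, hz0, hs1⟩ := htriv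
  have hZM : Z ≤ M := by rw [← hAE.inf]; exact inf_le_left
  have hcen : ∀ z ∈ Z, ∀ g ∈ M, z * g = g * z := fun z hz g _ => hAE.cen z hz g
  obtain ⟨-, hrel, -, -⟩ := h1 Γ Z M C δ hAE
  obtain ⟨hfin, hkpos, -⟩ := h9 Γ Z M hZM ν hν
  have hSS := h4 Γ Z M hZM hcen ν hν
  rw [hrel] at hSS
  -- degrees
  have hdeg : ∀ χ ∈ Ab M ν, ∃ d : ℕ, 0 < d ∧ χ 1 = d := by
    intro χ hχ
    exact (FI.Lib.lS1 Γ M χ hχ.1).2.2.1
  choose! d hd0 hd1 using hdeg
  set s : Finset (Γ → ℂ) := hfin.toFinset with hs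
  have hmem : ∀ χ, χ ∈ s ↔ χ ∈ Ab M ν := fun χ => hfin.mem_toFinset
  have hcoe : (s : Set (Γ → ℂ)) = Ab M ν := hfin.coe_toFinset
  have hcard : kk M ν = s.card := by
    rw [kk, ← hcoe, Set.ncard_coe_finset]
  have hsum : ∑ χ ∈ s, d χ * d χ = 60 := by
    have h10 : ∑ᶠ χ ∈ Ab M ν, χ 1 * χ 1 = ∑ χ ∈ s, χ 1 * χ 1 := by
      rw [← hcoe]; exact finsum_mem_coe_finset _ _
    rw [h10] at hSS
    have h11 : ((∑ χ ∈ s, d χ * d χ : ℕ) : ℂ) = ((60 : ℕ) : ℂ) := by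
      rw [← hSS]
      push_cast
      refine Finset.sum_congr rfl fun χ hχ => ?_
      rw [hd1 χ ((hmem χ).mp hχ)]
    exact_mod_cast h11
  -- the order of the root of unity
  have hpow : ∀ χ ∈ Ab M ν, ν z0 ^ (d χ) = 1 := fun χ hχ =>
    h3 Γ Z M hZM hcen ν hν χ hχ.1 hχ.2 (d χ) (hd1 χ hχ) z0 hz0
  set k := orderOf (ν z0) with hk
  have hkd : ∀ χ ∈ Ab M ν, k ∣ d χ := fun χ hχ => orderOf_dvd_of_pow_eq_one (hpow χ hχ)
  have hne : (Ab M ν).Nonempty := by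
    rw [Set.nonempty_iff_ne_empty]
    intro h
    rw [kk, h, Set.ncard_empty] at hkpos
    exact lt_irrefl _ hkpos
  obtain ⟨χ0, hχ0⟩ := hne
  have hk1 : k ≠ 1 := by
    intro h
    exact hs1 (orderOf_eq_one_iff.mp h)
  have hk0 : 0 < k := Nat.pos_of_dvd_of_pos (hkd χ0 hχ0) (hd0 χ0 hχ0)
  have hkk : k * k ∣ 60 := by
    rw [← hsum]
    exact Finset.dvd_sum fun χ hχ =>
      mul_dvd_mul (hkd χ ((hmem χ).mp hχ)) (hkd χ ((hmem χ).mp hχ))
  have hk2 : k = 2 := by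
    have h12 : k * k ≤ 60 := Nat.le_of_dvd (by norm_num) hkk
    have h13 : k ≤ 7 := by
      by_contra hcon
      push Not at hcon
      have : 8 * 8 ≤ k * k := Nat.mul_le_mul hcon hcon
      omega
    have h14 : 2 ≤ k := by omega
    generalize k = m at hkk h13 h14 ⊢
    interval_cases m <;> revert hkk <;> decide
  have heven : ∀ χ ∈ s, 0 < d χ ∧ 2 ∣ d χ := by
    intro χ hχ
    have h15 := (hmem χ).mp hχ
    refine ⟨hd0 χ h15, ?_⟩
    have := hkd χ h15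
    rwa [hk2] at this
  -- the number of characters
  have hmapA : ∀ x : M, δ x ∈ A5 := by
    intro x
    rw [← hAE.map]
    exact Subgroup.mem_map_of_mem δ x.2
  let q : M →* A5 := (δ.comp M.subtype).codRestrict A5 hmapA
  have hq : ∀ x : M, (q x : Equiv.Perm (Fin 5)) = δ x := fun x => rfl
  have hqs : Function.Surjective q := by
    rintro ⟨σ, hσ⟩
    have h16 : σ ∈ M.map δ := by rw [hAE.map]; exact hσ
    obtain ⟨m, hm, rfl⟩ := h16
    exact ⟨⟨m, hm⟩, Subtype.ext rfl⟩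
  have hqk : ∀ x : M, q x = 1 ↔ (x : Γ) ∈ Z := by
    intro x
    rw [← hAE.inf]
    constructor
    · intro h
      refine ⟨x.2, (hAE.ker _).mpr ?_⟩
      rw [← hq x, h]
      rfl
    · intro h
      apply Subtype.ext
      rw [hq x, (hAE.ker _).mp h.2]
      rfl
  have hle := h5 Γ Z M hZM hcen A5 q hqs hqk ν hν
  rw [h6, hcard] at hle
  obtain ⟨hc4, hc14⟩ := h7 (Γ → ℂ) s d hle heven hsum
  refine ⟨by rw [hcard, hc4], ?_, ?_⟩
  · have h17 : dd M ν = ∑ χ ∈ s, (χ 1).re := by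
      rw [dd, ← hcoe]; exact finsum_mem_coe_finset _ _
    rw [h17]
    have h18 : ∑ χ ∈ s, (χ 1).re = ((∑ χ ∈ s, d χ : ℕ) : ℝ) := by
      push_cast
      refine Finset.sum_congr rfl fun χ hχ => ?_
      rw [hd1 χ ((hmem χ).mp hχ)]
      simp
    rw [h18, hc14]
    norm_num
  · intro φ hφ
    obtain ⟨h19, h20⟩ := heven φ ((hmem φ).mpr hφ)
    rw [hd1 φ hφ]
    rcases Nat.lt_or_ge (d φ) 4 with h | h
    · left
      have : d φ = 2 := by omega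
      rw [this]
      norm_num
    · right
      rw [Complex.natCast_re]
      exact_mod_cast h

end Pool.Agent.H7.FI
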